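import Pool.Agent.Q165.Coin.Loc
import Pool.Agent.W714.Coin.Map

set_option autoImplicit false

/-!
# A curve with equal angles for short chords is a circle
-/

namespace Pool.Agent.Q165.Coin

open Pool.Agent.H738R2.Cyl Pool.Agent.W714.Coin Complex Set Topology Filter

variable {γ : ℝ → ℂ} {L : ℝ}

/-- `γ` parametrises a circle -/
def IsCircle (γ : ℝ → ℂ) : Prop := ∃ (c : ℂ) (R : ℝ), 0 < R ∧ ∀ s, ‖γ s - c‖ = R

lemma smooth_derivs (hγ : ContDiff ℝ (⊤ : ℕ∞) γ) : ∃ g1 g2 g3 g4 : ℝ → ℂ,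
    g1 = deriv γ ∧ (∀ x, HasDerivAt γ (g1 x) x) ∧ (∀ x, HasDerivAt g1 (g2 x) x) ∧
    (∀ x, HasDerivAt g2 (g3 x) x) ∧ (∀ x, HasDerivAt g3 (g4 x) x) ∧ Continuous g4 := by
  have step : ∀ f : ℝ → ℂ, ContDiff ℝ (⊤ : ℕ∞) f →
      (∀ x, HasDerivAt f (deriv f x) x) ∧ ContDiff ℝ (⊤ : ℕ∞) (deriv f) := by
    intro f hf
    have h1 := contDiff_infty_iff_deriv.mp hf
    exact ⟨fun x => (h1.1 x).hasDerivAt, h1.2⟩
  obtain ⟨a1, b1⟩ := step γ hγ
  obtain ⟨a2, b2⟩ := step _ b1
  obtain ⟨a3, b3⟩ := step _ b2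
  obtain ⟨a4, b4⟩ := step _ b3
  exact ⟨_, _, _, _, rfl, a1, a2, a3, a4, b4.continuous⟩

lemma im_conj_mul_of_arg_eq {z w : ℂ} (h : arg z = arg w) : ((starRingEnd ℂ) z * w).im = 0 := by
  have h1 := Complex.norm_mul_exp_arg_mul_I z
  have h2 := Complex.norm_mul_exp_arg_mul_I w
  rw [← h1, ← h2, map_mul, Complex.conj_ofReal, ← Complex.exp_conj, h, map_mul, Complex.conj_ofReal,
    Complex.conj_I]
  have h3 : (‖z‖ : ℂ) * cexp ((arg w : ℂ) * -I) * ((‖w‖ : ℂ) * cexp ((arg w : ℂ) * I)) =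
      ((‖z‖ * ‖w‖ : ℝ) : ℂ) := by
    have : cexp ((arg w : ℂ) * -I) * cexp ((arg w : ℂ) * I) = 1 := by
      rw [← Complex.exp_add]
      ring_nf
      exact Complex.exp_zero
    push_cast
    linear_combination (‖z‖ : ℂ) * ‖w‖ * this
  rw [h3, Complex.ofReal_im]

/-- equal angles of arbitrarily short chords at every point force a circle -/
theorem circle_of_equal_angles (h : StrictlyConvexCurve γ L)
    (hf : ∀ s : ℝ, ∃ᶠ x in 𝓝[>] (0:ℝ), angA h (s : AddCircle L) x = angB h (s : AddCircle L) x) :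
    IsCircle γ := by
  obtain ⟨g1, g2, g3, g4, e1, d1, d2, d3, d4, c4⟩ := smooth_derivs h.smooth
  have hunit : ∀ s, (starRingEnd ℂ) (g1 s) * g1 s = 1 := by
    intro s
    rw [e1]
    exact conj_deriv_mul h s
  have hconj : ∀ {f : ℝ → ℂ} {f' : ℂ} {x : ℝ}, HasDerivAt f f' x →
      HasDerivAt (fun x => (starRingEnd ℂ) (f x)) ((starRingEnd ℂ) f') x := fun hf => hf.star
  have hre : ∀ s, ((starRingEnd ℂ) (g1 s) * g2 s).re = 0 := by
    intro s
    have h1 : HasDerivAt (fun x => (starRingEnd ℂ) (g1 x) * g1 x)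
        ((starRingEnd ℂ) (g2 s) * g1 s + (starRingEnd ℂ) (g1 s) * g2 s) s :=
      (hconj (d2 s)).mul (d2 s)
    have h2 : HasDerivAt (fun x => (starRingEnd ℂ) (g1 x) * g1 x) 0 s := by
      have : (fun x => (starRingEnd ℂ) (g1 x) * g1 x) = fun _ => (1:ℂ) := funext hunit
      rw [this]
      exact hasDerivAt_const _ _
    have h3 := congrArg Complex.re (h1.unique h2)
    simp only [Complex.add_re, Complex.mul_re, Complex.conj_re, Complex.conj_im,
      Complex.zero_re] at h3 ⊢
    linarith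
  have him : ∀ s, ((starRingEnd ℂ) (g1 s) * g3 s).im = 0 := by
    intro s
    have hs : ∀ {f f' : ℝ → ℂ}, (∀ x, HasDerivAt f (f' x) x) → ∀ x : ℝ,
        HasDerivAt (fun x => (starRingEnd ℂ) (g1 s) * f (s + x))
          ((starRingEnd ℂ) (g1 s) * f' (s + x)) x := by
      intro f f' hf x
      exact ((hf (s + x)).comp_const_add s x).const_mul _
    have hZA : ∀ x : ℝ, ZA h (s : AddCircle L) x = (starRingEnd ℂ) (g1 s) * (γ (s + x) - γ s) := by
      intro x
      rw [ZA_coe, e1]
    have hZB : ∀ x : ℝ, ZB h (s : AddCircle L) x = (starRingEnd ℂ) (γ (s + x) - γ s) * g1 (s + x) := by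
      intro x
      rw [ZB_coe, e1]
    have := third (g := fun x => (starRingEnd ℂ) (g1 s) * (γ (s + x) - γ s))
      (g1 := fun x => (starRingEnd ℂ) (g1 s) * g1 (s + x))
      (g2 := fun x => (starRingEnd ℂ) (g1 s) * g2 (s + x))
      (g3 := fun x => (starRingEnd ℂ) (g1 s) * g3 (s + x))
      (g4 := fun x => (starRingEnd ℂ) (g1 s) * g4 (s + x))
      (fun x => by
        have h1 := ((d1 (s + x)).comp_const_add s x).sub_const (γ s)
        exact h1.const_mul _)
      (hs d2) (hs d3) (hs d4) (by fun_prop) (by simp) (by simpa using hunit s)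
      (by simpa using hre s) (by
        refine (hf s).mono fun x hx => ?_
        have h2 : ((starRingEnd ℂ) (ZA h (s : AddCircle L) x) * ZB h (s : AddCircle L) x).im = 0 :=
          im_conj_mul_of_arg_eq hx
        rw [hZA, hZB] at h2
        rw [← h2]
        congr 1
        simp only [map_mul, Complex.conj_conj]
        linear_combination (g1 s * (starRingEnd ℂ) (γ (s + x) - γ s) ^ 2 * g1 (s + x)) * hunit s)
    simpa using this
  -- the curvature is constant
  set k : ℝ → ℂ := fun s => (starRingEnd ℂ) (g1 s) * g2 s with hk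
  have dk : ∀ s, HasDerivAt k ((starRingEnd ℂ) (g2 s) * g2 s + (starRingEnd ℂ) (g1 s) * g3 s) s :=
    fun s => (hconj (d2 s)).mul (d3 s)
  have dk0 : ∀ s, (starRingEnd ℂ) (g2 s) * g2 s + (starRingEnd ℂ) (g1 s) * g3 s = 0 := by
    intro s
    apply Complex.ext
    · have h1 : HasDerivAt (fun x => (k x).re)
          ((starRingEnd ℂ) (g2 s) * g2 s + (starRingEnd ℂ) (g1 s) * g3 s).re s :=
        Complex.reCLM.hasFDerivAt.comp_hasDerivAt s (dk s)
      have h2 : HasDerivAt (fun x => (k x).re) 0 s := by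
        have : (fun x => (k x).re) = fun _ => (0:ℝ) := funext hre
        rw [this]
        exact hasDerivAt_const _ _
      exact h1.unique h2
    · rw [Complex.add_im, him s, add_zero]
      simp [Complex.mul_im, mul_comm]
  have hkc : ∀ s, k s = k 0 := by
    intro s
    exact is_const_of_deriv_eq_zero (fun x => (dk x).differentiableAt)
      (fun x => by rw [(dk x).deriv, dk0]) s 0
  have hg2 : ∀ s, g2 s = k 0 * g1 s := by
    intro s
    rw [← hkc s, hk]
    linear_combination (-g2 s) * hunit s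
  have hconst : ∀ s, g1 s - k 0 * γ s = g1 0 - k 0 * γ 0 := by
    intro s
    have hd : ∀ x, HasDerivAt (fun x => g1 x - k 0 * γ x) (g2 x - k 0 * g1 x) x :=
      fun x => (d2 x).sub ((d1 x).const_mul _)
    exact is_const_of_deriv_eq_zero (fun x => (hd x).differentiableAt)
      (fun x => by rw [(hd x).deriv, hg2 x, sub_self]) s 0
  have hk0 : k 0 ≠ 0 := by
    intro h0
    have h1 : ∀ s, g1 s = g1 0 := by
      intro s
      have := hconst s
      rw [h0, zero_mul, zero_mul, sub_zero, sub_zero] at this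
      exact this
    have hd : ∀ x, HasDerivAt (fun x : ℝ => γ x - x * g1 0) (g1 x - 1 * g1 0) x := by
      intro x
      have hx : HasDerivAt (fun x : ℝ => (x : ℂ)) 1 x := ofRealCLM.hasDerivAt
      exact (d1 x).sub (hx.mul_const _)
    have h2 := is_const_of_deriv_eq_zero (fun x => (hd x).differentiableAt)
      (fun x => by rw [(hd x).deriv, h1 x, one_mul, sub_self]) L 0
    have h3 : γ L = γ 0 := by simpa using h.periodic 0
    simp only [h3, Complex.ofReal_zero, zero_mul, sub_zero] at h2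
    have h4 : (L : ℂ) * g1 0 = 0 := by linear_combination -h2
    rcases mul_eq_zero.mp h4 with h5 | h5
    · exact h.length_pos.ne' (by exact_mod_cast h5)
    · have := hunit 0
      rw [h5] at this
      simp at this
  refine ⟨γ 0 - g1 0 / k 0, 1 / ‖k 0‖, by positivity, fun s => ?_⟩
  have h1 : γ s - (γ 0 - g1 0 / k 0) = g1 s / k 0 := by
    have := hconst s
    field_simp
    linear_combination -this
  have h2 : ‖g1 s‖ = 1 := by rw [e1]; exact h.unit_speed s
  rw [h1, norm_div, h2]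

end Pool.Agent.Q165.Coin
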