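import Pool.Agent.Q165.Coin.Circle

set_option autoImplicit false

/-!
# The map of a circle is integrable
-/

namespace Pool.Agent.Q165.Coin

open Pool.Agent.H738R2.Cyl Pool.Agent.W714.Coin Complex Set Topology Filter

variable {γ : ℝ → ℂ} {L : ℝ}

/-- a map from a circle to a circle with a lift of nonzero degree is not null-homotopic -/
lemma not_nullhomotopic (hL : 0 < L) (f : C(AddCircle (1:ℝ), AddCircle L))
    (hf : ∀ x : ℝ, f (x : AddCircle (1:ℝ)) = ((x * L : ℝ) : AddCircle L)) : ¬ f.Nullhomotopic := by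
  rintro ⟨a, ⟨H⟩⟩
  have cov : IsCoveringMap ((↑) : ℝ → AddCircle L) := AddCircle.isCoveringMap_coe L
  obtain ⟨b, hb⟩ := coe_surjL a
  have H' := H.symm
  obtain ⟨g, hg⟩ : ∃ g : C(AddCircle (1:ℝ), ℝ), ∀ u, ((g u : ℝ) : AddCircle L) = f u := by
    let G : C(unitInterval × AddCircle (1:ℝ), AddCircle L) := H'.toContinuousMap
    have hG0 : ∀ u, G (0, u) = ((b : ℝ) : AddCircle L) := by
      intro u
      change H' (0, u) = _
      rw [H'.apply_zero, hb]
      rfl
    have hG1 : ∀ u, G (1, u) = f u := fun u => H'.apply_one u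
    let Φ := cov.liftHomotopy G (ContinuousMap.const _ b) hG0
    refine ⟨⟨fun u => Φ (1, u), by fun_prop⟩, fun u => ?_⟩
    have := congrFun (cov.liftHomotopy_lifts G (ContinuousMap.const _ b) hG0) (1, u)
    rw [← hG1 u]
    exact this
  have hc : Continuous fun x : ℝ => g (x : AddCircle (1:ℝ)) - x * L := by
    have : Continuous ((↑) : ℝ → AddCircle (1:ℝ)) := continuous_coe
    fun_prop
  have h1 := const_of_coe_const (p := L) (fun x : ℝ => g (x : AddCircle (1:ℝ)) - x * L) hc 0 (by
    intro x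
    rw [AddCircle.coe_sub, hg, hf, sub_self]) 1 0
  have h2 : ((1 : ℝ) : AddCircle (1:ℝ)) = ((0 : ℝ) : AddCircle (1:ℝ)) := by
    have := AddCircle.coe_add_period (1:ℝ) 0
    rwa [zero_add] at this
  simp only [h2] at h1
  linarith

/-- the tangent of a circle -/
lemma tangent (h : StrictlyConvexCurve γ L) {c : ℂ} {R : ℝ} (hR : 0 < R)
    (hc : ∀ s, ‖γ s - c‖ = R) (s : ℝ) : deriv γ s = I * ((γ s - c) / R) := by
  have hR' : (R : ℂ) ≠ 0 := by exact_mod_cast hR.ne'
  set p := γ s - c with hp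
  have hpp : (starRingEnd ℂ) p * p = R ^ 2 := by
    rw [mul_comm, Complex.mul_conj, Complex.normSq_eq_norm_sq, hc s]
    push_cast
    ring
  -- the derivative is orthogonal to the radius
  have hre : ((starRingEnd ℂ) p * deriv γ s).re = 0 := by
    have h1 : HasDerivAt (fun x => (starRingEnd ℂ) (γ x - c) * (γ x - c))
        ((starRingEnd ℂ) (deriv γ s) * (γ s - c) + (starRingEnd ℂ) (γ s - c) * deriv γ s) s := by
      have h2 : HasDerivAt (fun x => γ x - c) (deriv γ s) s := (hasDerivAt h s).sub_const c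
      exact h2.star.mul h2
    have h2 : HasDerivAt (fun x => (starRingEnd ℂ) (γ x - c) * (γ x - c)) 0 s := by
      have : (fun x => (starRingEnd ℂ) (γ x - c) * (γ x - c)) = fun _ => ((R : ℂ) ^ 2) := by
        funext x
        rw [mul_comm, Complex.mul_conj, Complex.normSq_eq_norm_sq, hc x]
        push_cast
        ring
      rw [this]
      exact hasDerivAt_const _ _
    have h3 := congrArg Complex.re (h1.unique h2)
    rw [← hp] at h3
    simp only [Complex.add_re, Complex.mul_re, Complex.conj_re, Complex.conj_im,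
      Complex.zero_re] at h3 ⊢
    linarith
  -- a second point of the curve
  have hL := h.length_pos
  have hne : γ (s + L / 2) ≠ γ s := gamma_ne h s ⟨by linarith, by linarith⟩
  have hconv := h.strictly_convex s (s + L / 2) hne
  set q := γ (s + L / 2) - γ s with hq
  have hq0 : q ≠ 0 := sub_ne_zero.mpr hne
  have hqn : 0 < ‖q‖ ^ 2 := by positivity
  have hre2 : ((starRingEnd ℂ) p * q).re = -(‖q‖ ^ 2) / 2 := by
    have h1 : γ (s + L / 2) - c = p + q := by rw [hp, hq]; ring
    have h2 := hc (s + L / 2)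
    rw [h1] at h2
    have h3 : ‖p + q‖ ^ 2 = ‖p‖ ^ 2 := by rw [h2, hc s]
    rw [← Complex.normSq_eq_norm_sq, ← Complex.normSq_eq_norm_sq, Complex.normSq_apply,
      Complex.normSq_apply] at h3
    rw [← Complex.normSq_eq_norm_sq, Complex.normSq_apply]
    simp only [Complex.add_re, Complex.add_im, Complex.mul_re, Complex.conj_re,
      Complex.conj_im] at h3 ⊢
    linarith
  -- `conj p * γ' = i τ`
  set τ := ((starRingEnd ℂ) p * deriv γ s).im with hτ
  have e1 : (starRingEnd ℂ) p * deriv γ s = τ * I := by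
    apply Complex.ext
    · rw [hre]; simp
    · simp [hτ]
  have e2 : (R : ℂ) ^ 2 * deriv γ s = τ * I * p := by
    linear_combination (p * 1) * e1 - deriv γ s * hpp
  have hτn : |τ| = R := by
    have h1 := congrArg norm e2
    rw [norm_mul, norm_mul, norm_mul, norm_pow, h.unit_speed, Complex.norm_I, hc s,
      Complex.norm_real, Complex.norm_real, Real.norm_eq_abs, Real.norm_eq_abs,
      abs_of_pos hR] at h1
    have h2 : R * R = |τ| * R := by linarith
    exact (mul_right_cancel₀ hR.ne' h2).symm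
  have e3 : (starRingEnd ℂ) (deriv γ s) * ((R : ℂ) ^ 2) = -(τ * I * (starRingEnd ℂ) p) := by
    have := congrArg (starRingEnd ℂ) e2
    simp only [map_mul, map_pow, Complex.conj_ofReal, Complex.conj_I] at this
    linear_combination this
  have hτpos : 0 < τ := by
    have h1 : ((starRingEnd ℂ) (deriv γ s) * q * (R : ℂ) ^ 2).im = -(τ * ((starRingEnd ℂ) p * q).re) := by
      have : (starRingEnd ℂ) (deriv γ s) * q * (R : ℂ) ^ 2 = -(τ * (I * ((starRingEnd ℂ) p * q))) := by
        linear_combination q * e3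
      rw [this, Complex.neg_im, Complex.im_ofReal_mul, Complex.I_mul_im]
    have h2 : ((starRingEnd ℂ) (deriv γ s) * q * (R : ℂ) ^ 2).im =
        ((starRingEnd ℂ) (deriv γ s) * q).im * R ^ 2 := by
      rw [← Complex.ofReal_pow, Complex.im_mul_ofReal]
    rw [h2, hre2] at h1
    have h3 : 0 < ((starRingEnd ℂ) (deriv γ s) * q).im * R ^ 2 := by positivity
    by_contra hneg
    push Not at hneg
    nlinarith
  have hτR : τ = R := by rw [← hτn, abs_of_pos hτpos]
  rw [hτR] at e2
  field_simp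
  have : (R : ℂ) * (deriv γ s * R) = R * (I * p) := by linear_combination e2
  exact mul_left_cancel₀ hR' this

/-- chords of a circle have equal angles -/
lemma chord_eq (h : StrictlyConvexCurve γ L) (hC : IsCircle γ) {s s₁ α α₁ : ℝ}
    (hα : α ∈ Ioo 0 Real.pi) (hα₁ : α₁ ∈ Ioo 0 Real.pi) (hc : Chord γ s α s₁ α₁) : α₁ = α := by
  obtain ⟨c, R, hR, hcc⟩ := hC
  obtain ⟨ℓ, hℓ, h1, h2⟩ := hc
  have hR' : (R : ℂ) ≠ 0 := by exact_mod_cast hR.ne'
  have t0 := tangent h hR hcc s
  have t1 := tangent h hR hcc s₁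
  have hd0 := deriv_ne_zero_of h s
  have e0 : exp (α₁ * I) * exp (-(α₁ * I)) = 1 := by
    rw [← Complex.exp_add, add_neg_cancel, Complex.exp_zero]
  have e0' : exp (α * I) * exp (-(α * I)) = 1 := by
    rw [← Complex.exp_add, add_neg_cancel, Complex.exp_zero]
  -- `γ' s₁ = e^{iα₁} e^{iα} γ' s`
  have e1 : deriv γ s₁ = exp (α₁ * I) * exp (α * I) * deriv γ s := by
    linear_combination (-deriv γ s₁) * e0 - exp (α₁ * I) * h2
  -- difference of the tangents
  have e2 : (R : ℂ) * (deriv γ s₁ - deriv γ s) = I * (ℓ * (exp (α * I) * deriv γ s)) := by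
    have a1 : (R : ℂ) * deriv γ s₁ = I * (γ s₁ - c) := by rw [t1]; field_simp
    have a2 : (R : ℂ) * deriv γ s = I * (γ s - c) := by rw [t0]; field_simp
    linear_combination a1 - a2 + I * h1
  rw [e1] at e2
  have e3 : (R : ℂ) * (exp (α₁ * I) * exp (α * I) - 1) = I * ℓ * exp (α * I) := by
    apply mul_right_cancel₀ hd0
    linear_combination e2
  have e4 : (R : ℂ) * (exp (α₁ * I) - exp (-(α * I))) = I * ℓ := by
    have : exp (α * I) ≠ 0 := exp_ne_zero _
    apply mul_right_cancel₀ this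
    linear_combination e3 - R * e0'
  have e5 := congrArg Complex.re e4
  rw [Complex.re_ofReal_mul, Complex.sub_re, Complex.exp_ofReal_mul_I_re] at e5
  have e6 : (exp (-((α : ℂ) * I))).re = Real.cos α := by
    have : -((α : ℂ) * I) = ((-α : ℝ) : ℂ) * I := by push_cast; ring
    rw [this, Complex.exp_ofReal_mul_I_re, Real.cos_neg]
  rw [e6] at e5
  have e7 : (I * (ℓ : ℂ)).re = 0 := by simp
  rw [e7] at e5
  have e8 : Real.cos α₁ = Real.cos α := by
    rcases mul_eq_zero.mp e5 with h3 | h3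
    · exact absurd h3 hR.ne'
    · linarith
  exact Real.injOn_cos ⟨hα₁.1.le, hα₁.2.le⟩ ⟨hα.1.le, hα.2.le⟩ e8

lemma ang_eq (h : StrictlyConvexCurve γ L) (hC : IsCircle γ) (w : AddCircle L) {x : ℝ}
    (hx : x ∈ Ioo 0 L) : angB h w x = angA h w x := by
  obtain ⟨s, rfl⟩ := coe_surjL w
  exact chord_eq h hC (angA_mem h _ hx) (angB_mem h _ hx) (chord h s hx)

lemma tmap_snd_circle (h : StrictlyConvexCurve γ L) (hC : IsCircle γ) (d : ℝ)
    (z : PhaseCylinder L) : (tmap h d z).2 = z.2 := by
  apply Subtype.ext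
  change angB h z.1 (len h z) = (z.2 : ℝ)
  rw [ang_eq h hC z.1 (len_mem h z), angA_len]

lemma tmap_onto (h : StrictlyConvexCurve γ L) (hC : IsCircle γ) (d : ℝ)
    (z : PhaseCylinder L) : ∃ z' : PhaseCylinder L, z'.2 = z.2 ∧ tmap h d z' = z := by
  -- undo the rotation
  set w : AddCircle L := z.1 - ((d * Real.cot (z.2 : ℝ) : ℝ) : AddCircle L) with hw
  obtain ⟨x, hx, hxα⟩ := exists_angB_eq h w z.2.2
  have h1 : angA h (w - (x : AddCircle L)) x = z.2 := by
    rw [← ang_eq h hC _ hx, hxα]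
  refine ⟨(w - (x : AddCircle L), z.2), rfl, ?_⟩
  have hlen : len h ((w - (x : AddCircle L), z.2) : PhaseCylinder L) = x := len_eq h hx h1
  have hb : bmap h ((w - (x : AddCircle L), z.2) : PhaseCylinder L) = (w, z.2) := by
    refine Prod.ext ?_ (Subtype.ext ?_)
    · change (w - (x : AddCircle L)) + ((len h _ : ℝ) : AddCircle L) = w
      rw [hlen, sub_add_cancel]
    · change angB h (w - (x : AddCircle L)) (len h _) = _
      rw [hlen, hxα]
  change cylinderMap L d (bmap h _) = z
  rw [hb]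
  refine Prod.ext ?_ rfl
  change w + _ = z.1
  rw [hw, sub_add_cancel]

/-- a homeomorphism of the line and the interval of angles -/
lemma exists_homeo : Nonempty (ℝ ≃ₜ Ioo (0:ℝ) Real.pi) := by
  refine ⟨{
    toFun := fun y => ⟨Real.arctan y + Real.pi / 2, by
      have h1 := Real.neg_pi_div_two_lt_arctan y
      have h2 := Real.arctan_lt_pi_div_two y
      constructor <;> linarith⟩
    invFun := fun a => Real.tan ((a : ℝ) - Real.pi / 2)
    left_inv := ?_
    right_inv := ?_
    continuous_toFun := ?_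
    continuous_invFun := ?_ }⟩
  · intro y
    simp [Real.tan_arctan]
  · intro a
    apply Subtype.ext
    have h1 := a.2.1
    have h2 := a.2.2
    change Real.arctan (Real.tan ((a : ℝ) - Real.pi / 2)) + Real.pi / 2 = a
    rw [Real.arctan_tan (by linarith) (by linarith)]
    ring
  · have := Real.continuous_arctan
    fun_prop
  · rw [continuous_iff_continuousAt]
    intro a
    have h1 := a.2.1
    have h2 := a.2.2
    have h3 : ContinuousAt Real.tan ((a : ℝ) - Real.pi / 2) :=
      Real.continuousAt_tan.mpr (Real.cos_pos_of_mem_Ioo ⟨by linarith, by linarith⟩).ne'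
    exact ContinuousAt.comp (f := fun a : Ioo (0:ℝ) Real.pi => (a : ℝ) - Real.pi / 2) (x := a) h3
      (by fun_prop)

theorem integrable_of_circle (h : StrictlyConvexCurve γ L) (hC : IsCircle γ) (d : ℝ) :
    IsIntegrable (tmap h d) := by
  have hL := h.length_pos
  obtain ⟨e⟩ := exists_homeo
  let κ : AddCircle (1:ℝ) ≃ₜ AddCircle L := AddCircle.homeomorphAddCircle 1 L one_ne_zero hL.ne'
  have hκ : ∀ x : ℝ, κ (x : AddCircle (1:ℝ)) = ((x * L : ℝ) : AddCircle L) := by
    intro x
    have := AddCircle.homeomorphAddCircle_apply_mk (𝕜 := ℝ) 1 L one_ne_zero hL.ne' x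
    rw [inv_one, one_mul] at this
    exact this
  refine ⟨{Γ | ∃ a : Ioo (0:ℝ) Real.pi, Γ = {z | z.2 = a}}, ?_, ?_, ?_⟩
  · intro z
    refine ⟨{z' | z'.2 = z.2}, ⟨⟨z.2, rfl⟩, rfl⟩, ?_⟩
    rintro Γ ⟨⟨a, rfl⟩, hz⟩
    have : z.2 = a := hz
    rw [this]
  · rintro Γ ⟨a, rfl⟩
    refine ⟨⟨fun u => (κ u, a), by fun_prop⟩, ?_, ?_, ?_, ?_⟩
    · intro u v huv
      exact κ.injective (Prod.ext_iff.mp huv).1
    · intro hn
      have h1 := hn.comp_right (⟨Prod.fst, continuous_fst⟩ : C(PhaseCylinder L, AddCircle L))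
      exact not_nullhomotopic hL _ (fun x => hκ x) h1
    · ext z
      constructor
      · rintro ⟨u, rfl⟩
        rfl
      · intro hz
        refine ⟨κ.symm z.1, ?_⟩
        refine Prod.ext (κ.apply_symm_apply _) ?_
        exact hz.symm
    · ext z
      constructor
      · rintro ⟨z', hz', rfl⟩
        change (tmap h d z').2 = a
        rw [tmap_snd_circle h hC]
        exact hz'
      · intro hz
        obtain ⟨z', h1, h2⟩ := tmap_onto h hC d z
        exact ⟨z', h1.trans hz, h2⟩
  · rintro Γ ⟨a, rfl⟩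
    -- the homeomorphism
    let e' : ℝ ≃ₜ Ioo (0:ℝ) Real.pi := (Homeomorph.addRight (e.symm a)).trans e
    let Φ : AddCircle (1:ℝ) × ℝ ≃ₜ PhaseCylinder L := κ.prodCongr e'
    have hr : ∀ t, (Set.range fun u => Φ (u, t)) = {z : PhaseCylinder L | z.2 = e' t} := by
      intro t
      ext z
      constructor
      · rintro ⟨u, rfl⟩
        rfl
      · intro hz
        refine ⟨κ.symm z.1, ?_⟩
        exact Prod.ext (κ.apply_symm_apply _) hz.symm
    refine ⟨Φ, Φ.isOpenEmbedding, ?_, fun t => ⟨e' t, hr t⟩⟩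
    have h0 : e' 0 = a := by
      change e (0 + e.symm a) = a
      rw [zero_add, e.apply_symm_apply]
    have h1 := hr 0
    rw [h0] at h1
    exact h1

end Pool.Agent.Q165.Coin
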