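import Pool.Agent.Q165.Coin.Circle
import Pool.Agent.W714.Coin.Meas

set_option autoImplicit false

/-!
# Integrability forces equal angles for short chords
-/

namespace Pool.Agent.Q165.Coin

open Pool.Agent.H738R2.Cyl Pool.Agent.W714.Coin Complex Set Topology Filter

variable {γ : ℝ → ℂ} {L : ℝ}

/-- a rotational invariant curve projects onto the circle -/
lemma proj_surj {T : PhaseCylinder L → PhaseCylinder L} {Γ : Set (PhaseCylinder L)}
    (hΓ : IsRotationalInvariantCurve T Γ) (w : AddCircle L) : ∃ z ∈ Γ, z.1 = w := by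
  obtain ⟨c, -, hn, hr, -⟩ := hΓ
  haveI : ContractibleSpace (Ioo (0:ℝ) Real.pi) :=
    (convex_Ioo 0 Real.pi).contractibleSpace ⟨Real.pi / 2, by constructor <;> linarith [Real.pi_pos]⟩
  obtain ⟨σ, κ, h1, h2, h3, h4⟩ := Pool.Agent.H738R2.lift_closed_curve c hn
  obtain ⟨y, rfl⟩ := coe_surjL w
  have h5 : y ∈ range σ := by
    apply mem_range_of_exists_le_of_exists_ge h1
    · obtain ⟨n, hn⟩ := exists_nat_gt (|y - σ 0| / |κ|)
      have hk : 0 < |κ| := abs_pos.mpr h2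
      rw [div_lt_iff₀ hk] at hn
      rcases h2.lt_or_gt with h | h
      · refine ⟨0 + ((n : ℤ) : ℝ), ?_⟩
        rw [add_int_of_add_one σ κ h3]
        rw [abs_of_neg h] at hn
        push_cast
        have := neg_abs_le (y - σ 0)
        nlinarith
      · refine ⟨0 + ((-n : ℤ) : ℝ), ?_⟩
        rw [add_int_of_add_one σ κ h3]
        rw [abs_of_pos h] at hn
        push_cast
        have := neg_abs_le (y - σ 0)
        nlinarith
    · obtain ⟨n, hn⟩ := exists_nat_gt (|y - σ 0| / |κ|)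
      have hk : 0 < |κ| := abs_pos.mpr h2
      rw [div_lt_iff₀ hk] at hn
      rcases h2.lt_or_gt with h | h
      · refine ⟨0 + ((-n : ℤ) : ℝ), ?_⟩
        rw [add_int_of_add_one σ κ h3]
        rw [abs_of_neg h] at hn
        push_cast
        have := le_abs_self (y - σ 0)
        nlinarith
      · refine ⟨0 + ((n : ℤ) : ℝ), ?_⟩
        rw [add_int_of_add_one σ κ h3]
        rw [abs_of_pos h] at hn
        push_cast
        have := le_abs_self (y - σ 0)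
        nlinarith
  obtain ⟨x, hx⟩ := h5
  refine ⟨c (x : AddCircle (1:ℝ)), ?_, ?_⟩
  · rw [← hr]
    exact ⟨_, rfl⟩
  · rw [← h4, hx]

/-- a foliation contains curves in every neighbourhood of the lower boundary -/
lemma low_leaf (hL : 0 < L) {T : PhaseCylinder L → PhaseCylinder L}
    (F : Set (Set (PhaseCylinder L))) (hpart : ∀ z, ∃! Γ, Γ ∈ F ∧ z ∈ Γ)
    (hric : ∀ Γ ∈ F, IsRotationalInvariantCurve T Γ)
    (htube : ∀ Γ ∈ F, ∃ φ : AddCircle (1 : ℝ) × ℝ → PhaseCylinder L, IsOpenEmbedding φ ∧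
      (Set.range fun u => φ (u, 0)) = Γ ∧ ∀ t, (Set.range fun u => φ (u, t)) ∈ F)
    {η : ℝ} (hη : 0 < η) : ∃ Γ ∈ F, ∀ z ∈ Γ, (z.2 : ℝ) < η := by
  haveI : Fact (0 < L) := ⟨hL⟩
  by_contra hcon
  push Not at hcon
  -- an angle below `η` in the interval
  set η' : ℝ := min η (Real.pi / 2) with hη'
  have hη'0 : 0 < η' := lt_min hη (by positivity)
  have hη'1 : η' < Real.pi := lt_of_le_of_lt (min_le_right _ _) (by linarith [Real.pi_pos])
  have hcon' : ∀ Γ ∈ F, ∃ z ∈ Γ, η' ≤ (z.2 : ℝ) := fun Γ hΓ => by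
    obtain ⟨z, hz, h⟩ := hcon Γ hΓ
    exact ⟨z, hz, (min_le_left _ _).trans h⟩
  have hα : ∀ n : ℕ, η' / (n + 2) ∈ Ioo (0:ℝ) Real.pi := by
    intro n
    have h2 : (0:ℝ) < n + 2 := by positivity
    refine ⟨by positivity, ?_⟩
    rw [div_lt_iff₀ h2]
    nlinarith [Real.pi_pos, (Nat.cast_nonneg n : (0:ℝ) ≤ n)]
  set z : ℕ → PhaseCylinder L := fun n => (0, ⟨η' / (n + 2), hα n⟩) with hz
  choose Γ hΓ using fun n => (hpart (z n)).exists
  have hp : ∀ n, ∃ w : AddCircle L, ((w, ⟨η', hη'0, hη'1⟩) : PhaseCylinder L) ∈ Γ n := by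
    intro n
    obtain ⟨c, -, -, hr, -⟩ := hric _ (hΓ n).1
    have h1 : z n ∈ range c := by rw [hr]; exact (hΓ n).2
    obtain ⟨u, hu⟩ := h1
    obtain ⟨y, hy, hy'⟩ := hcon' _ (hΓ n).1
    rw [← hr] at hy
    obtain ⟨v, hv⟩ := hy
    have hcont : Continuous fun u => ((c u).2 : ℝ) := by fun_prop
    have h2 : η' ∈ range fun u => ((c u).2 : ℝ) := by
      apply mem_range_of_exists_le_of_exists_ge hcont
      · refine ⟨u, ?_⟩
        rw [hu]
        change η' / (n + 2) ≤ η'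
        rw [div_le_iff₀ (by positivity)]
        nlinarith [(Nat.cast_nonneg n : (0:ℝ) ≤ n)]
      · exact ⟨v, by rw [hv]; exact hy'⟩
    obtain ⟨u', hu'⟩ := h2
    refine ⟨(c u').1, ?_⟩
    rw [← hr]
    exact ⟨u', Prod.ext rfl (Subtype.ext hu')⟩
  choose w hw using hp
  obtain ⟨w0, -, ψ, hψ, hlim⟩ := (isCompact_univ (X := AddCircle L)).tendsto_subseq
    (x := w) (fun _ => mem_univ _)
  set p : PhaseCylinder L := (w0, ⟨η', hη'0, hη'1⟩) with hpdef
  have hlim' : Tendsto (fun n => ((w (ψ n), ⟨η', hη'0, hη'1⟩) : PhaseCylinder L)) atTop (𝓝 p) :=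
    hlim.prodMk_nhds tendsto_const_nhds
  obtain ⟨Γ0, ⟨hΓ0, hp0⟩, -⟩ := hpart p
  obtain ⟨φ, hφ, h0, hF⟩ := htube Γ0 hΓ0
  rw [← h0] at hp0
  obtain ⟨u0, hu0⟩ := hp0
  -- the neighbourhood
  set N : Set (PhaseCylinder L) := φ '' (univ ×ˢ Ioo (-1:ℝ) 1) with hN
  have hNo : IsOpen N := hφ.isOpenMap _ (isOpen_univ.prod isOpen_Ioo)
  have hpN : p ∈ N := ⟨(u0, 0), ⟨mem_univ _, by norm_num⟩, hu0⟩
  set C : Set (PhaseCylinder L) := φ '' (univ ×ˢ Icc (-1:ℝ) 1) with hC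
  have hCc : IsCompact C := (isCompact_univ.prod isCompact_Icc).image hφ.continuous
  have hCne : C.Nonempty := ⟨φ (u0, 0), (u0, 0), ⟨mem_univ _, by norm_num⟩, rfl⟩
  obtain ⟨zm, hzm, hmin⟩ := hCc.exists_isMinOn hCne
    (show ContinuousOn (fun z : PhaseCylinder L => (z.2 : ℝ)) C by fun_prop)
  have hev1 : ∀ᶠ n in atTop, ((w (ψ n), ⟨η', hη'0, hη'1⟩) : PhaseCylinder L) ∈ N :=
    hlim'.eventually (hNo.mem_nhds hpN)
  have hev2 : ∀ᶠ n : ℕ in atTop, η' / ((ψ n : ℝ) + 2) < (zm.2 : ℝ) := by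
    have h1 : Tendsto (fun n : ℕ => η' / ((ψ n : ℝ) + 2)) atTop (𝓝 0) := by
      apply Tendsto.const_div_atTop
      apply tendsto_atTop_add_const_right
      exact tendsto_natCast_atTop_atTop.comp hψ.tendsto_atTop
    exact h1.eventually (gt_mem_nhds zm.2.2.1)
  obtain ⟨n, h1, h2⟩ := (hev1.and hev2).exists
  obtain ⟨⟨u, t⟩, ⟨-, ht⟩, hut⟩ := h1
  have h3 : Γ (ψ n) = Set.range fun u => φ (u, t) := by
    refine (hpart (φ (u, t))).unique ⟨(hΓ _).1, ?_⟩ ⟨hF t, ⟨u, rfl⟩⟩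
    rw [hut]
    exact hw _
  have h4 : z (ψ n) ∈ C := by
    have h5 := (hΓ (ψ n)).2
    rw [h3] at h5
    obtain ⟨v, hv⟩ := h5
    exact ⟨(v, t), ⟨mem_univ _, ht.1.le, ht.2.le⟩, hv⟩
  have h5 : (zm.2 : ℝ) ≤ ((z (ψ n)).2 : ℝ) := hmin h4
  have h6 : ((z (ψ n)).2 : ℝ) = η' / ((ψ n : ℝ) + 2) := rfl
  linarith

lemma cot_le {a b : ℝ} (ha : 0 < a) (hab : a ≤ b) (hb : b < Real.pi) : Real.cot b ≤ Real.cot a := by
  rw [Real.cot_eq_cos_div_sin, Real.cot_eq_cos_div_sin]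
  have h1 : 0 < Real.sin b := Real.sin_pos_of_pos_of_lt_pi (ha.trans_le hab) hb
  have h2 : 0 < Real.sin a := Real.sin_pos_of_pos_of_lt_pi ha (hab.trans_lt hb)
  have h3 : 0 ≤ Real.sin (b - a) :=
    Real.sin_nonneg_of_nonneg_of_le_pi (by linarith) (by linarith)
  rw [Real.sin_sub] at h3
  rw [div_le_div_iff₀ h1 h2]
  linarith

/-- integrability gives equal angles for arbitrarily short chords -/
theorem equal_angles (h : StrictlyConvexCurve γ L) {d : ℝ} (hd : 0 < d)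
    (hI : IsIntegrable (tmap h d)) (s : ℝ) :
    ∃ᶠ x in 𝓝[>] (0:ℝ), angA h (s : AddCircle L) x = angB h (s : AddCircle L) x := by
  obtain ⟨F, hpart, hric, htube⟩ := hI
  have hL := h.length_pos
  haveI : Fact (0 < L) := ⟨hL⟩
  haveI : ContractibleSpace (Ioo (0:ℝ) Real.pi) :=
    (convex_Ioo 0 Real.pi).contractibleSpace ⟨Real.pi / 2, by constructor <;> linarith [Real.pi_pos]⟩
  -- a leaf on which the displacement is bounded
  obtain ⟨M, hM⟩ : ∃ M : ℝ, ∃ Γ ∈ F, ∀ z ∈ Γ, disp h d z ≤ M := by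
    obtain ⟨Γ0, ⟨hΓ0, -⟩, -⟩ := hpart ((0 : AddCircle L), ⟨Real.pi / 2, by
      constructor <;> linarith [Real.pi_pos]⟩)
    obtain ⟨c, -, -, hr, -⟩ := hric Γ0 hΓ0
    obtain ⟨u, -, hu⟩ := (isCompact_univ (X := AddCircle (1:ℝ))).exists_isMaxOn ⟨0, mem_univ _⟩
      (show ContinuousOn (fun u => disp h d (c u)) univ from
        ((continuous_disp h d).comp c.continuous).continuousOn)
    refine ⟨disp h d (c u), Γ0, hΓ0, ?_⟩
    rintro z hz
    rw [← hr] at hz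
    obtain ⟨v, rfl⟩ := hz
    exact hu (mem_univ v)
  rw [Filter.frequently_iff]
  intro U hU
  obtain ⟨ε, hε, hεU⟩ := (mem_nhdsGT_iff_exists_Ioo_subset).mp hU
  rw [mem_Ioi] at hε
  obtain ⟨η, hη, hsmall⟩ := exists_small h hε
  -- a large integer
  set η' : ℝ := min η (Real.pi / 2) with hη'
  have hη'0 : 0 < η' := lt_min hη (by positivity)
  have hη'1 : η' < Real.pi := lt_of_le_of_lt (min_le_right _ _) (by linarith [Real.pi_pos])
  obtain ⟨K, hK⟩ := exists_nat_gt (max (M / L) (d * Real.cot η' / L + 1))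
  have hK1 : M < K * L := by
    have := (le_max_left _ _).trans_lt hK
    rwa [div_lt_iff₀ hL] at this
  have hK2 : d * Real.cot η' + L < K * L := by
    have := (le_max_right _ _).trans_lt hK
    have h1 : d * Real.cot η' / L < K - 1 := by linarith
    rw [div_lt_iff₀ hL] at h1
    linarith
  obtain ⟨Γ, hΓ, hfix⟩ := exists_fixed_leaf (K := (K : ℤ)) (T := tmap h d) (D := disp h d) hL
    (continuous_tmap h d) (tmap_injective h d) (fun y : Ioo (0:ℝ) Real.pi => (y : ℝ))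
    continuous_subtype_val Subtype.val_injective (continuous_disp h d) (tmap_fst h d)
    (recurrent h d) F hpart hric htube
    (by
      obtain ⟨η1, hη1, hD⟩ := exists_disp_large h hd (((K : ℤ) : ℝ) * L)
      obtain ⟨Γ, hΓ, hlow⟩ := low_leaf hL F hpart hric htube hη1
      exact ⟨Γ, hΓ, fun z hz => hD z (hlow z hz)⟩)
    (by
      obtain ⟨Γ, hΓ, hb⟩ := hM
      refine ⟨Γ, hΓ, fun z hz => (hb z hz).trans_lt ?_⟩
      push_cast
      exact hK1)
  obtain ⟨z, hz, hzs⟩ := proj_surj (hric Γ hΓ) (s : AddCircle L)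
  obtain ⟨hT, hD⟩ := hfix z hz
  have h2 : (bmap h z).2 = z.2 := by
    rw [← tmap_snd h d z, hT]
  have hlen := len_mem h z
  have hDz : disp h d z = len h z + d * Real.cot ((bmap h z).2 : ℝ) := rfl
  rw [hDz, h2] at hD
  push_cast at hD
  have hzη : (z.2 : ℝ) < η := by
    by_contra hge
    push Not at hge
    have h3 := cot_le hη'0 ((min_le_left _ _).trans hge) z.2.2.2
    nlinarith [hlen.2]
  obtain ⟨-, hlt⟩ := hsmall z hzη
  refine ⟨len h z, hεU ⟨hlen.1, hlt⟩, ?_⟩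
  have h4 : angA h z.1 (len h z) = z.2 := angA_len h z
  have h5 : angB h z.1 (len h z) = ((bmap h z).2 : ℝ) := rfl
  rw [← hzs, h4, h5, h2]

end Pool.Agent.Q165.Coin
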