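import Mathlib

set_option autoImplicit false

/-!
# The third order expansion of chords with equal angles
-/

namespace Pool.Agent.Q165.Coin

open Complex Set Topology Filter Asymptotics

/-- integration of a one-sided estimate -/
lemma int_bigO {f : ℝ → ℂ} (hf : Differentiable ℝ f) (h0 : f 0 = 0) {n : ℕ}
    (h : deriv f =O[𝓝[≥] (0:ℝ)] fun x => x ^ n) : f =O[𝓝[≥] (0:ℝ)] fun x => x ^ (n + 1) := by
  obtain ⟨C, hC, hb⟩ := h.exists_pos
  rw [IsBigOWith] at hb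
  obtain ⟨ε, hε, hb'⟩ := mem_nhdsGE_iff_exists_Ico_subset.mp hb
  rw [mem_Ioi] at hε
  refine IsBigO.of_bound C ?_
  filter_upwards [Ico_mem_nhdsGE hε] with x hx
  have h1 := norm_image_sub_le_of_norm_deriv_right_le_segment (f := f) (f' := deriv f)
    (a := 0) (b := x) (C := C * x ^ n) hf.continuous.continuousOn
    (fun y _ => (hf y).hasDerivAt.hasDerivWithinAt) (fun y hy => by
      have h2 : ‖deriv f y‖ ≤ C * ‖y ^ n‖ := hb' ⟨hy.1, hy.2.trans hx.2⟩
      rw [Real.norm_of_nonneg (pow_nonneg hy.1 n)] at h2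
      refine h2.trans ?_
      gcongr
      · exact hy.1
      · exact hy.2.le) x ⟨hx.1, le_rfl⟩
  rw [h0, sub_zero, sub_zero] at h1
  rw [Real.norm_of_nonneg (pow_nonneg hx.1 _), pow_succ]
  linarith

/-- A curve with `g 0 = 0`, `g' 0 = 1`, `Re g''(0) = 0` for which `conj (g x) ^ 2 * g' x` is real for
arbitrarily small `x > 0` has `Im g'''(0) = 0`. -/
lemma third {g g1 g2 g3 g4 : ℝ → ℂ} (h1 : ∀ x, HasDerivAt g (g1 x) x)
    (h2 : ∀ x, HasDerivAt g1 (g2 x) x) (h3 : ∀ x, HasDerivAt g2 (g3 x) x)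
    (h4 : ∀ x, HasDerivAt g3 (g4 x) x) (hc : Continuous g4)
    (e0 : g 0 = 0) (e1 : g1 0 = 1) (e2 : (g2 0).re = 0)
    (hf : ∃ᶠ x in 𝓝[>] (0:ℝ), (((starRingEnd ℂ) (g x)) ^ 2 * g1 x).im = 0) : (g3 0).im = 0 := by
  set β : ℝ := (g2 0).im / 2 with hβ
  set a : ℝ := (g3 0).re / 6 with ha
  set b : ℝ := (g3 0).im / 6 with hb
  have c2 : g2 0 = 2 * (β * I) := by
    apply Complex.ext
    · simp [e2]
    · simp [hβ]; ring
  have c3 : g3 0 = 6 * (a + b * I) := by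
    apply Complex.ext
    · simp [ha]; ring
    · simp [hb]; ring
  -- remainders
  set r3 : ℝ → ℂ := fun x => g3 x - 6 * (a + b * I) with hr3
  set r2 : ℝ → ℂ := fun x => g2 x - (2 * (β * I) + 6 * (a + b * I) * x) with hr2
  set r1 : ℝ → ℂ := fun x => g1 x - (1 + 2 * (β * I) * x + 3 * (a + b * I) * x ^ 2) with hr1
  set r0 : ℝ → ℂ := fun x => g x - (x + (β * I) * x ^ 2 + (a + b * I) * x ^ 3) with hr0
  have hx : ∀ x : ℝ, HasDerivAt (fun x : ℝ => (x : ℂ)) 1 x := fun x => ofRealCLM.hasDerivAt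
  have hx2 : ∀ x : ℝ, HasDerivAt (fun x : ℝ => (x : ℂ) ^ 2) (2 * x) x := fun x =>
    ((hx x).pow 2).congr_deriv (by simp)
  have hx3 : ∀ x : ℝ, HasDerivAt (fun x : ℝ => (x : ℂ) ^ 3) (3 * x ^ 2) x := fun x =>
    ((hx x).pow 3).congr_deriv (by simp)
  have d3 : ∀ x, HasDerivAt r3 (g4 x) x := fun x => by
    simpa [hr3] using (h4 x).sub_const (6 * ((a:ℂ) + b * I))
  have d2 : ∀ x, HasDerivAt r2 (r3 x) x := fun x => by
    have := (h3 x).sub (((hx x).const_mul (6 * ((a:ℂ) + b * I))).const_add (2 * ((β:ℂ) * I)))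
    exact this.congr_deriv (by simp [hr3])
  have d1 : ∀ x, HasDerivAt r1 (r2 x) x := fun x => by
    have := (h2 x).sub ((((hx x).const_mul (2 * ((β:ℂ) * I))).const_add 1).add
      ((hx2 x).const_mul (3 * ((a:ℂ) + b * I))))
    refine this.congr_deriv ?_
    simp only [hr2]
    ring
  have d0 : ∀ x, HasDerivAt r0 (r1 x) x := fun x => by
    have := (h1 x).sub (((hx x).add ((hx2 x).const_mul ((β:ℂ) * I))).add
      ((hx3 x).const_mul ((a:ℂ) + b * I)))
    refine this.congr_deriv ?_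
    simp only [hr1]
    ring
  have D : ∀ {f f' : ℝ → ℂ}, (∀ x, HasDerivAt f (f' x) x) → Differentiable ℝ f ∧ deriv f = f' :=
    fun h => ⟨fun x => (h x).differentiableAt, funext fun x => (h x).deriv⟩
  have o4 : g4 =O[𝓝[≥] (0:ℝ)] fun x => x ^ 0 := by
    simp only [pow_zero]
    exact (hc.continuousAt.mono_left nhdsWithin_le_nhds).isBigO_one ℝ
  have o3 : r3 =O[𝓝[≥] (0:ℝ)] fun x => x ^ 1 :=
    int_bigO (D d3).1 (by simp [hr3, c3]) (by rw [(D d3).2]; exact o4)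
  have o2 : r2 =O[𝓝[≥] (0:ℝ)] fun x => x ^ 2 :=
    int_bigO (D d2).1 (by simp [hr2, c2]) (by rw [(D d2).2]; exact o3)
  have o1 : r1 =O[𝓝[≥] (0:ℝ)] fun x => x ^ 3 :=
    int_bigO (D d1).1 (by simp [hr1, e1]) (by rw [(D d1).2]; exact o2)
  have o0 : r0 =O[𝓝[≥] (0:ℝ)] fun x => x ^ 4 :=
    int_bigO (D d0).1 (by simp [hr0, e0]) (by rw [(D d0).2]; exact o1)
  -- the polynomial parts
  set P : ℝ → ℂ := fun x => x + (β * I) * x ^ 2 + (a + b * I) * x ^ 3 with hP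
  set Q : ℝ → ℂ := fun x => 1 + 2 * (β * I) * x + 3 * (a + b * I) * x ^ 2 with hQ
  have oP : P =O[𝓝[≥] (0:ℝ)] fun x => x ^ 1 := by
    have e : P = fun x => ((x ^ 1 : ℝ) : ℂ) * (1 + (β * I) * x + (a + b * I) * x ^ 2) := by
      funext x
      simp only [hP]
      push_cast
      ring
    rw [e]
    have h5 : (fun x : ℝ => (1 + (β * I) * x + (a + b * I) * x ^ 2 : ℂ)) =O[𝓝[≥] (0:ℝ)]
        fun _ => (1 : ℝ) := by
      have : Continuous (fun x : ℝ => (1 + (β * I) * x + (a + b * I) * x ^ 2 : ℂ)) := by fun_prop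
      exact (this.continuousAt.mono_left nhdsWithin_le_nhds).isBigO_one ℝ
    have h6 : (fun x : ℝ => ((x ^ 1 : ℝ) : ℂ)) =O[𝓝[≥] (0:ℝ)] fun x => x ^ 1 :=
      IsBigO.of_bound 1 (Eventually.of_forall fun x => by simp)
    simpa using h6.mul h5
  have oQ1 : (fun x => Q x + r1 x) =O[𝓝[≥] (0:ℝ)] fun _ => (1 : ℝ) := by
    have e : (fun x => Q x + r1 x) = g1 := by
      funext x
      simp only [hQ, hr1]
      ring
    rw [e]
    have : Continuous g1 := continuous_iff_continuousAt.mpr fun x => (h2 x).continuousAt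
    exact (this.continuousAt.mono_left nhdsWithin_le_nhds).isBigO_one ℝ
  have oc0 : (fun x => (starRingEnd ℂ) (r0 x)) =O[𝓝[≥] (0:ℝ)] fun x => x ^ 4 := by
    refine IsBigO.congr_left (f₁ := fun x => (starRingEnd ℂ) (r0 x)) ?_ (fun _ => rfl)
    rw [← isBigO_norm_left]
    simp only [Complex.norm_conj]
    exact o0.norm_left
  have ocP : (fun x => (starRingEnd ℂ) (P x)) =O[𝓝[≥] (0:ℝ)] fun x => x ^ 1 := by
    rw [← isBigO_norm_left]
    simp only [Complex.norm_conj]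
    exact oP.norm_left
  -- difference
  have oE : (fun x => ((starRingEnd ℂ) (g x)) ^ 2 * g1 x - ((starRingEnd ℂ) (P x)) ^ 2 * Q x)
      =O[𝓝[≥] (0:ℝ)] fun x => x ^ 5 := by
    have e : (fun x => ((starRingEnd ℂ) (g x)) ^ 2 * g1 x - ((starRingEnd ℂ) (P x)) ^ 2 * Q x) =
        fun x => ((starRingEnd ℂ) (P x) * (starRingEnd ℂ) (P x)) * r1 x +
          ((2 * ((starRingEnd ℂ) (P x) * (starRingEnd ℂ) (r0 x)) +
            (starRingEnd ℂ) (r0 x) * (starRingEnd ℂ) (r0 x)) * (Q x + r1 x)) := by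
      funext x
      have e1 : g x = P x + r0 x := by simp only [hP, hr0]; ring
      have e2 : g1 x = Q x + r1 x := by simp only [hQ, hr1]; ring
      rw [e1, e2, map_add]
      ring
    rw [e]
    have t1 := (ocP.mul ocP).mul o1
    have t2 := ((ocP.mul oc0).const_mul_left 2)
    have t3 : (fun x => (starRingEnd ℂ) (r0 x) * (starRingEnd ℂ) (r0 x)) =O[𝓝[≥] (0:ℝ)]
        fun x => x ^ 1 * x ^ 4 := by
      refine (oc0.mul oc0).trans ?_
      refine IsBigO.of_bound 1 ?_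
      filter_upwards [Icc_mem_nhdsGE (show (0:ℝ) < 1 by norm_num)] with x hx
      rw [one_mul, norm_mul, norm_mul, norm_pow, norm_pow, Real.norm_of_nonneg hx.1]
      have h5 : x ^ 4 ≤ x ^ 1 := pow_le_pow_of_le_one hx.1 hx.2 (by norm_num)
      exact mul_le_mul_of_nonneg_right h5 (by positivity)
    have t4 := (t2.add t3).mul oQ1
    have c1 : (fun x : ℝ => x ^ 1 * x ^ 1 * x ^ 3) = fun x => x ^ 5 := by funext x; ring
    have c2 : (fun x : ℝ => x ^ 1 * x ^ 4 * 1) = fun x => x ^ 5 := by funext x; ring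
    rw [c1] at t1
    rw [c2] at t4
    exact t1.add t4
  -- the imaginary part of the polynomial
  have oI : (fun x : ℝ => (((starRingEnd ℂ) (P x)) ^ 2 * Q x).im - b * x ^ 4)
      =O[𝓝[≥] (0:ℝ)] fun x => x ^ 5 := by
    obtain ⟨R, hR, hRe⟩ : ∃ R : ℝ → ℝ, Continuous R ∧
        ∀ x, (((starRingEnd ℂ) (P x)) ^ 2 * Q x).im - b * x ^ 4 = x ^ 5 * R x := by
      refine ⟨fun x => (-4 * a * β - 2 * β ^ 3) + (-2 * a * b - 7 * b * β ^ 2) * x +
        (-4 * β * a ^ 2 - 8 * β * b ^ 2) * x ^ 2 + (-3 * a ^ 2 * b - 3 * b ^ 3) * x ^ 3,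
        by fun_prop, ?_⟩
      intro x
      simp only [hP, hQ, pow_succ, pow_zero]
      simp
      ring
    have e : (fun x : ℝ => (((starRingEnd ℂ) (P x)) ^ 2 * Q x).im - b * x ^ 4) =
        fun x => x ^ 5 * R x := funext hRe
    rw [e]
    have h5 : R =O[𝓝[≥] (0:ℝ)] fun _ => (1 : ℝ) :=
      (hR.continuousAt.mono_left nhdsWithin_le_nhds).isBigO_one ℝ
    simpa using (isBigO_refl (fun x : ℝ => x ^ 5) _).mul h5
  have oF : (fun x : ℝ => (((starRingEnd ℂ) (g x)) ^ 2 * g1 x).im - b * x ^ 4)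
      =O[𝓝[≥] (0:ℝ)] fun x => x ^ 5 := by
    have e : (fun x : ℝ => (((starRingEnd ℂ) (g x)) ^ 2 * g1 x).im - b * x ^ 4) =
        fun x => (((starRingEnd ℂ) (g x)) ^ 2 * g1 x - ((starRingEnd ℂ) (P x)) ^ 2 * Q x).im +
          ((((starRingEnd ℂ) (P x)) ^ 2 * Q x).im - b * x ^ 4) := by
      funext x
      rw [Complex.sub_im]
      ring
    rw [e]
    refine IsBigO.add ?_ oI
    refine IsBigO.trans (IsBigO.of_bound 1 (Eventually.of_forall fun x => ?_)) oE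
    rw [one_mul, Real.norm_eq_abs]
    exact Complex.abs_im_le_norm _
  -- conclusion
  obtain ⟨C, hC, hb'⟩ := oF.exists_pos
  rw [IsBigOWith] at hb'
  have hb'' : ∀ᶠ x in 𝓝[>] (0:ℝ), ‖(((starRingEnd ℂ) (g x)) ^ 2 * g1 x).im - b * x ^ 4‖
      ≤ C * ‖x ^ 5‖ := hb'.filter_mono (nhdsWithin_mono _ Ioi_subset_Ici_self)
  have hb0 : b = 0 := by
    by_contra hne
    have h5 : 0 < |b| / C := div_pos (abs_pos.mpr hne) hC
    have h6 : ∀ᶠ x in 𝓝[>] (0:ℝ), x ∈ Ioo 0 (|b| / C) := Ioo_mem_nhdsGT h5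
    obtain ⟨x, hx0, hx1, hx2⟩ := (hf.and_eventually (hb''.and h6)).exists
    rw [hx0, zero_sub, norm_neg, norm_mul, norm_pow, norm_pow, Real.norm_eq_abs,
      Real.norm_of_nonneg hx2.1.le] at hx1
    have h7 : 0 < x ^ 4 := pow_pos hx2.1 4
    have h8 : |b| ≤ C * x := by
      have : |b| * x ^ 4 ≤ (C * x) * x ^ 4 := by
        calc |b| * x ^ 4 ≤ C * x ^ 5 := hx1
          _ = (C * x) * x ^ 4 := by ring
      exact le_of_mul_le_mul_right this h7
    have h9 : C * x < |b| := by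
      have := (lt_div_iff₀ hC).mp hx2.2
      linarith
    linarith
  rw [hb] at hb0
  linarith

end Pool.Agent.Q165.Coin
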